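import Pool.Agent.Helper95_PSC.Stmts

set_option autoImplicit false

/-!
The contractions `M ^ n` on the contracting space.
-/

namespace Pool.Agent.PSC.H84

open Pool.Agent.Helper40_Pisot MeasureTheory Finset Pool.Agent.PSC

variable {m : ℕ} {M : Matrix (Fin (m + 1)) (Fin (m + 1)) ℤ} {r : ℝ} {α l : Fin (m + 1) → ℝ}

lemma Bn_apply (M : Matrix (Fin (m + 1)) (Fin (m + 1)) ℤ) (α : Fin (m + 1) → ℝ) (n : ℕ)
    (y : E m) : Bn M α n y = (Bred M α n).mulVec y := by
  unfold Bn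
  rw [Matrix.toLin'_apply]

/-- Column sums times the frequencies. -/
lemma colsum_α (h : PFData M r α l) (n : ℕ) :
    ∑ j, (∑ t, ((M ^ n) t j : ℝ)) * α j = r ^ n := by
  simp_rw [Finset.sum_mul]
  rw [Finset.sum_comm]
  simp_rw [pow_α h]
  rw [← Finset.mul_sum, h.α_sum, mul_one]

lemma Bmat_α (h : PFData M r α l) (n : ℕ) (i : Fin (m + 1)) :
    ∑ j, Bmat M α n i j * α j = 0 := by
  unfold Bmat
  simp_rw [sub_mul]
  rw [Finset.sum_sub_distrib, pow_α h]
  have e1 : ∀ x, (∑ t, ((M ^ n) t x : ℝ)) * α i * α x =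
      α i * ((∑ t, ((M ^ n) t x : ℝ)) * α x) := by
    intro x
    ring
  simp_rw [e1]
  rw [← Finset.mul_sum, colsum_α h]
  ring

lemma Bmat_colsum (h : PFData M r α l) (n : ℕ) (j : Fin (m + 1)) :
    ∑ a, Bmat M α n a j = 0 := by
  unfold Bmat
  rw [Finset.sum_sub_distrib, ← Finset.mul_sum, h.α_sum]
  ring

/-- Composition of the full matrices. -/
lemma Bmat_add (h : PFData M r α l) (n k : ℕ) (i j : Fin (m + 1)) :
    ∑ a, Bmat M α n i a * Bmat M α k a j = Bmat M α (n + k) i j := by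
  have e1 : ∀ a, Bmat M α n i a * Bmat M α k a j =
      ((M ^ n) i a : ℝ) * ((M ^ k) a j : ℝ) -
        (∑ t, ((M ^ n) t a : ℝ) * ((M ^ k) a j : ℝ)) * α i -
        (∑ t, ((M ^ k) t j : ℝ)) * (Bmat M α n i a * α a) := by
    intro a
    rw [← Finset.sum_mul]
    unfold Bmat
    ring
  simp_rw [e1]
  rw [Finset.sum_sub_distrib, Finset.sum_sub_distrib, ← Finset.mul_sum, Bmat_α h, mul_zero,
    sub_zero, ← Finset.sum_mul, Finset.sum_comm]
  have e2 : ∀ t, ∑ a, ((M ^ n) t a : ℝ) * ((M ^ k) a j : ℝ) = ((M ^ (n + k)) t j : ℝ) := by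
    intro t
    rw [pow_add, Matrix.mul_apply]
    push_cast
    rfl
  simp_rw [e2]
  rfl

/-- The extension of a vector to a vector with sum zero. -/
noncomputable def ext0 (y : E m) : Fin (m + 1) → ℝ := Fin.snoc y (-∑ i, y i)

lemma ext0_castSucc (y : E m) (i : Fin m) : ext0 y i.castSucc = y i := by
  unfold ext0
  rw [Fin.snoc_castSucc]

lemma ext0_sum (y : E m) : ∑ a, ext0 y a = 0 := by
  rw [Fin.sum_univ_castSucc]
  unfold ext0
  simp [Fin.snoc_castSucc, Fin.snoc_last]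

lemma Bn_ext0 (M : Matrix (Fin (m + 1)) (Fin (m + 1)) ℤ) (α : Fin (m + 1) → ℝ) (n : ℕ)
    (y : E m) (i : Fin m) :
    Bn M α n y i = ∑ j, Bmat M α n i.castSucc j * ext0 y j := by
  rw [Bn_apply, Bred_mulVec M α n _ (ext0_sum y)]
  simp_rw [ext0_castSucc]

/-- The action on projections. -/
lemma Bn_pr (h : PFData M r α l) (n : ℕ) (v : Lat m) :
    Bn M α n (pr α v) = pr α ((M ^ n).mulVec v) := by
  funext i
  set w : Fin (m + 1) → ℝ := fun a => (v a : ℝ) - (∑ j, (v j : ℝ)) * α a with hw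
  have hws : ∑ a, w a = 0 := by
    rw [hw, Finset.sum_sub_distrib, ← Finset.mul_sum, h.α_sum]
    ring
  have h1 : (pr α v : E m) = fun j : Fin m => w j.castSucc := rfl
  rw [Bn_apply, h1, ← Bred_mulVec M α n w hws]
  have e1 : ∀ j, Bmat M α n i.castSucc j * w j =
      ((M ^ n) i.castSucc j : ℝ) * (v j : ℝ) -
        (∑ t, ((M ^ n) t j : ℝ) * (v j : ℝ)) * α i.castSucc -
        (∑ j, (v j : ℝ)) * (Bmat M α n i.castSucc j * α j) := by
    intro j
    rw [← Finset.sum_mul, hw]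
    unfold Bmat
    ring
  simp_rw [e1]
  rw [Finset.sum_sub_distrib, Finset.sum_sub_distrib, ← Finset.mul_sum, Bmat_α h, mul_zero,
    sub_zero, ← Finset.sum_mul, Finset.sum_comm]
  have e2 : ∀ t, ∑ a, ((M ^ n) t a : ℝ) * (v a : ℝ) = (((M ^ n).mulVec v t : ℤ) : ℝ) := by
    intro t
    unfold Matrix.mulVec dotProduct
    push_cast
    rfl
  simp_rw [e2]
  rfl

/-- The heights. -/
lemma ht_mulVec (h : PFData M r α l) (n : ℕ) (v : Lat m) :
    ht l ((M ^ n).mulVec v) = r ^ n * ht l v := by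
  unfold ht
  have e2 : ∀ t, (((M ^ n).mulVec v t : ℤ) : ℝ) = ∑ a, ((M ^ n) t a : ℝ) * (v a : ℝ) := by
    intro t
    unfold Matrix.mulVec dotProduct
    push_cast
    rfl
  simp_rw [e2, Finset.mul_sum]
  rw [Finset.sum_comm]
  refine Finset.sum_congr rfl fun j _ => ?_
  have h1 := pow_l h n j
  calc ∑ i, l i * (((M ^ n) i j : ℝ) * (v j : ℝ))
      = (∑ i, l i * ((M ^ n) i j : ℝ)) * (v j : ℝ) := by
        rw [Finset.sum_mul]
        exact Finset.sum_congr rfl fun i _ => by ring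
    _ = _ := by rw [h1]; ring

/-- Norm bound. -/
lemma Bn_norm (h : PFData M r α l) :
    ∃ C ρ : ℝ, 0 ≤ C ∧ 0 < ρ ∧ ρ < 1 ∧
      ∀ (n : ℕ) (y : E m), ‖Bn M α n y‖ ≤ C * ρ ^ n * ‖y‖ := by
  obtain ⟨C, ρ, hC, hρ0, hρ1, hdec⟩ := h.decay
  refine ⟨m * (2 * C), ρ, by positivity, hρ0, hρ1, fun n y => ?_⟩
  rw [Bn_apply, pi_norm_le_iff_of_nonneg (by positivity)]
  intro i
  have h1 : (Bred M α n).mulVec y i = ∑ j, Bred M α n i j * y j := rfl
  rw [h1]
  have h2 : ∀ j, ‖Bred M α n i j * y j‖ ≤ 2 * C * ρ ^ n * ‖y‖ := by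
    intro j
    rw [norm_mul]
    have h3 : ‖Bred M α n i j‖ ≤ 2 * C * ρ ^ n := by
      have h4 : Bred M α n i j =
          Bmat M α n i.castSucc j.castSucc - Bmat M α n i.castSucc (Fin.last m) := rfl
      rw [h4]
      refine le_trans (norm_sub_le _ _) ?_
      have h5 : ‖Bmat M α n i.castSucc j.castSucc‖ ≤ C * ρ ^ n := hdec n _ _
      have h6 : ‖Bmat M α n i.castSucc (Fin.last m)‖ ≤ C * ρ ^ n := hdec n _ _
      linarith
    exact mul_le_mul h3 (norm_le_pi_norm y j) (norm_nonneg _) (by positivity)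
  refine le_trans (norm_sum_le _ _) ?_
  refine le_trans (Finset.sum_le_sum fun j _ => h2 j) ?_
  rw [Finset.sum_const, Finset.card_univ, Fintype.card_fin, nsmul_eq_mul]
  apply le_of_eq
  ring

lemma det_Bn (h : PFData M r α l) (n : ℕ) :
    |LinearMap.det (Bn M α n)| = (r ^ n)⁻¹ := by
  have h1 := det_Bred h n
  have hr : (0 : ℝ) < r ^ n := pow_pos (by linarith [h.one_lt]) n
  unfold Bn
  rw [LinearMap.det_toLin']
  exact eq_inv_of_mul_eq_one_left h1

lemma Bn_bij (h : PFData M r α l) (n : ℕ) : Function.Bijective (Bn M α n) := by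
  have hdet : LinearMap.det (Bn M α n) ≠ 0 := by
    intro h0
    have h1 := det_Bn h n
    have hr : (0 : ℝ) < r ^ n := pow_pos (by linarith [h.one_lt]) n
    rw [h0, abs_zero] at h1
    exact (inv_pos.2 hr).ne h1
  have h2 : IsUnit (Bn M α n) := by
    rw [LinearMap.isUnit_iff_isUnit_det]
    exact isUnit_iff_ne_zero.2 hdet
  exact (Module.End.isUnit_iff _).1 h2

/-- Composition. -/
lemma Bn_add (h : PFData M r α l) (n k : ℕ) (y : E m) :
    Bn M α (n + k) y = Bn M α n (Bn M α k y) := by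
  funext i
  rw [Bn_ext0]
  set z : Fin (m + 1) → ℝ := fun a => ∑ j, Bmat M α k a j * ext0 y j with hz
  have hzs : ∑ a, z a = 0 := by
    rw [hz]
    simp only
    rw [Finset.sum_comm]
    simp_rw [← Finset.sum_mul, Bmat_colsum h, zero_mul]
    exact Finset.sum_const_zero
  have h1 : Bn M α k y = fun j : Fin m => z j.castSucc := by
    funext j
    rw [Bn_ext0]
  rw [h1, Bn_apply, ← Bred_mulVec M α n z hzs, hz]
  simp_rw [Finset.mul_sum]
  rw [Finset.sum_comm]
  refine Finset.sum_congr rfl fun j _ => ?_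
  rw [← Bmat_add h, Finset.sum_mul]
  exact Finset.sum_congr rfl fun a _ => by ring

/-- Volumes. -/
lemma Bn_vol (h : PFData M r α l) (n : ℕ) (S : Set (E m)) :
    volume (Bn M α n '' S) = ENNReal.ofReal ((r ^ n)⁻¹) * volume S := by
  rw [Measure.addHaar_image_linearMap, det_Bn h]

theorem latB : LatBStmt := by
  intro m σ M r α l a0 x0 D
  exact ⟨Bn_pr D.pf, ht_mulVec D.pf, Bn_norm D.pf, Bn_bij D.pf, Bn_add D.pf, Bn_vol D.pf⟩

end Pool.Agent.PSC.H84
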